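import Mathlib

/-!
# The topologization of Kuratowski–Painlevé convergence over the box metric is not Hausdorff
-/

namespace Pool.Agent.Results.MP_3b4475_gt.NotHausdorff

open Set Filter Topology MeasureTheory
open scoped ENNReal NNReal

universe w

/-! ## mm-spaces and the box distance -/

/-- An mm-space: a complete separable metric space with a Borel probability measure. -/
structure MMSpace : Type 1 where
  /-- the underlying set -/
  carrier : Type
  [metric : MetricSpace carrier]
  [complete : CompleteSpace carrier]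
  [separable : TopologicalSpace.SeparableSpace carrier]
  [meas : MeasurableSpace carrier]
  [borel : BorelSpace carrier]
  /-- the measure -/
  μ : Measure carrier
  [prob : IsProbabilityMeasure μ]

attribute [instance] MMSpace.metric MMSpace.complete MMSpace.separable MMSpace.meas
  MMSpace.borel MMSpace.prob

/-- The support of the measure. -/
def MMSpace.supp (X : MMSpace) : Set X.carrier := X.μ.support

/-- The measure, considered on its support. -/
noncomputable def MMSpace.ν (X : MMSpace) : Measure X.supp := X.μ.comap Subtype.val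

/-- Isomorphism of mm-spaces: an isometry between the supports which transports the measure. -/
def Iso (X Y : MMSpace) : Prop := ∃ f : X.supp ≃ᵢ Y.supp, X.ν.map f = Y.ν

theorem Iso.refl (X : MMSpace) : Iso X X :=
  ⟨IsometryEquiv.refl _, by
    have : (⇑(IsometryEquiv.refl X.supp)) = id := rfl
    rw [this, Measure.map_id]⟩

theorem Iso.symm {X Y : MMSpace} (h : Iso X Y) : Iso Y X := by
  obtain ⟨f, hf⟩ := h
  refine ⟨f.symm, ?_⟩
  rw [← hf, Measure.map_map f.symm.continuous.measurable f.continuous.measurable]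
  have : (⇑f.symm ∘ ⇑f) = id := by
    ext x
    simp
  rw [this, Measure.map_id]

theorem Iso.trans {X Y Z : MMSpace} (h : Iso X Y) (h' : Iso Y Z) : Iso X Z := by
  obtain ⟨f, hf⟩ := h
  obtain ⟨g, hg⟩ := h'
  refine ⟨f.trans g, ?_⟩
  rw [← hg, ← hf, Measure.map_map g.continuous.measurable f.continuous.measurable]
  rfl

/-- The equivalence relation of isomorphism. -/
def mmSetoid : Setoid MMSpace := ⟨Iso, Iso.refl, Iso.symm, Iso.trans⟩

/-- The set `𝒳` of isomorphism classes of mm-spaces. -/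
def XX : Type 1 := Quotient mmSetoid

/-- The class of an mm-space. -/
def cls (X : MMSpace) : XX := Quotient.mk mmSetoid X

/-- The interval `I = [0, 1)`. -/
abbrev II : Type := Set.Ico (0 : ℝ) 1

/-- Lebesgue measure on `I`. -/
noncomputable def lam : Measure II := (volume : Measure ℝ).comap Subtype.val

/-- `ε` is admissible in the definition of the box distance of `X` and `Y`: there are parameters
`φ` of `X` and `ψ` of `Y` and a Borel set `I₀` of measure at least `1 - ε` with
`|d_X (φ s) (φ t) - d_Y (ψ s) (ψ t)| ≤ ε` for `s, t ∈ I₀`. -/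
def Adm (X Y : MMSpace) (ε : ℝ) : Prop :=
  ∃ (φ : II → X.carrier) (ψ : II → Y.carrier) (I₀ : Set II), Measurable φ ∧ Measurable ψ ∧
    lam.map φ = X.μ ∧ lam.map ψ = Y.μ ∧ MeasurableSet I₀ ∧
    1 - ε ≤ lam.real I₀ ∧
    ∀ s ∈ I₀, ∀ t ∈ I₀, |dist (φ s) (φ t) - dist (ψ s) (ψ t)| ≤ ε

/-- The box distance (of two classes; the infimum is taken also over the representatives). -/
noncomputable def box (x y : XX) : ℝ≥0∞ :=
  sInf {δ | ∃ (X Y : MMSpace) (ε : ℝ≥0), cls X = x ∧ cls Y = y ∧ Adm X Y ε ∧ δ = ε}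

/-- `A` is `□`-closed: each point all of whose `□`-balls meet `A` belongs to `A`. -/
def IsBoxClosed (A : Set XX) : Prop :=
  ∀ x, (∀ ε : ℝ≥0, 0 < ε → ∃ y ∈ A, box x y < ε) → x ∈ A

/-- The set of `□`-closed subsets of `𝒳`. -/
def FF : Type 1 := {A : Set XX // IsBoxClosed A}

/-- The lower limit of a net: the points each neighbourhood of which meets `A i` for all
sufficiently large `i`. -/
def Li {D : Type w} [Preorder D] (A : D → FF) : Set XX :=
  {x | ∀ ε : ℝ≥0, 0 < ε → ∀ᶠ i in atTop, ∃ y ∈ (A i).1, box x y < ε}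

/-- The upper limit of a net: the points each neighbourhood of which meets `A i` for cofinally
many `i`. -/
def Ls {D : Type w} [Preorder D] (A : D → FF) : Set XX :=
  {x | ∀ ε : ℝ≥0, 0 < ε → ∃ᶠ i in atTop, ∃ y ∈ (A i).1, box x y < ε}

/-- Kuratowski–Painlevé convergence. -/
def KP {D : Type w} [Preorder D] (A : D → FF) (B : FF) : Prop := Ls A ⊆ B.1 ∧ B.1 ⊆ Li A

/-- The topologization `τK` of the Kuratowski–Painlevé convergence of nets (indexed by directed
sets in an arbitrary universe): `U` is open iff each net which converges in the sense of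
Kuratowski–Painlevé to a member of `U` is eventually in `U`. This is the finest topology in which
all these nets converge to their limits. -/
@[instance_reducible] def tauK : TopologicalSpace FF where
  IsOpen U := ∀ (D : Type w) [Preorder D] [IsDirected D (· ≤ ·)] [Nonempty D] (A : D → FF)
    (B : FF), KP A B → B ∈ U → ∀ᶠ i in atTop, A i ∈ U
  isOpen_univ _ _ _ _ _ _ _ _ := Filter.Eventually.of_forall fun _ => Set.mem_univ _
  isOpen_inter U V hU hV D _ _ _ A B h hB := (hU D A B h hB.1).and (hV D A B h hB.2)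
  isOpen_sUnion 𝒰 h𝒰 D _ _ _ A B h := by
    rintro ⟨U, hU, hB⟩
    exact (h𝒰 U hU D A B h hB).mono fun i hi => ⟨U, hU, hi⟩

/-! ## Clumps -/

/-- The measure has two clumps of mass about `a` and `b` at distance about `m`. -/
def Clump {Y : Type} [MetricSpace Y] [MeasurableSpace Y] (ν : Measure Y) (ε a b m : ℝ) : Prop :=
  ∃ P Q : Set Y, IsClosed P ∧ IsClosed Q ∧ (∀ x ∈ P, ∀ y ∈ P, dist x y ≤ ε) ∧
    (∀ x ∈ Q, ∀ y ∈ Q, dist x y ≤ ε) ∧ (∀ x ∈ P, ∀ y ∈ Q, |dist x y - m| ≤ ε) ∧
    a - ε ≤ ν.real P ∧ b - ε ≤ ν.real Q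

theorem Clump.mono {Y : Type} [MetricSpace Y] [MeasurableSpace Y] {ν : Measure Y}
    {ε ε' a b m : ℝ} (h : Clump ν ε a b m) (hε : ε ≤ ε') : Clump ν ε' a b m := by
  obtain ⟨P, Q, h1, h2, h3, h4, h5, h6, h7⟩ := h
  exact ⟨P, Q, h1, h2, fun x hx y hy => (h3 x hx y hy).trans hε,
    fun x hx y hy => (h4 x hx y hy).trans hε, fun x hx y hy => (h5 x hx y hy).trans hε,
    by linarith, by linarith⟩

theorem Clump.iso {Y Z : Type} [MetricSpace Y] [MeasurableSpace Y] [BorelSpace Y]
    [MetricSpace Z] [MeasurableSpace Z] [BorelSpace Z] {ν : Measure Y} {ν' : Measure Z}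
    (f : Y ≃ᵢ Z) (hf : ν.map f = ν') {ε a b m : ℝ} (h : Clump ν ε a b m) :
    Clump ν' ε a b m := by
  obtain ⟨P, Q, h1, h2, h3, h4, h5, h6, h7⟩ := h
  have key : ∀ R : Set Y, IsClosed R → ν'.real (f.symm ⁻¹' R) = ν.real R := by
    intro R hR
    rw [← hf, Measure.real, Measure.real, Measure.map_apply f.continuous.measurable
      (hR.preimage f.symm.continuous).measurableSet]
    congr 2
    ext x
    simp
  refine ⟨f.symm ⁻¹' P, f.symm ⁻¹' Q, h1.preimage f.symm.continuous,
    h2.preimage f.symm.continuous, ?_, ?_, ?_, ?_, ?_⟩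
  · intro x hx y hy
    rw [← f.symm.dist_eq]
    exact h3 _ hx _ hy
  · intro x hx y hy
    rw [← f.symm.dist_eq]
    exact h4 _ hx _ hy
  · intro x hx y hy
    rw [← f.symm.dist_eq]
    exact h5 _ hx _ hy
  · rwa [key P h1]
  · rwa [key Q h2]

theorem measurableSet_supp (X : MMSpace) : MeasurableSet X.supp :=
  Measure.isClosed_support.measurableSet

theorem ν_preimage (X : MMSpace) (S : Set X.carrier) :
    X.ν (Subtype.val ⁻¹' S) = X.μ S := by
  rw [MMSpace.ν, (MeasurableEmbedding.subtype_coe (measurableSet_supp X)).comap_apply,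
    Subtype.image_preimage_coe]
  have h : X.μ X.suppᶜ = 0 := by
    have := Measure.support_mem_ae (μ := X.μ)
    exact this
  rw [Set.inter_comm]
  apply le_antisymm (measure_mono Set.inter_subset_left)
  calc X.μ S ≤ X.μ (S ∩ X.supp ∪ X.suppᶜ) := by
        apply measure_mono
        intro x hx
        by_cases hxs : x ∈ X.supp
        · exact Or.inl ⟨hx, hxs⟩
        · exact Or.inr hxs
    _ ≤ X.μ (S ∩ X.supp) + X.μ X.suppᶜ := measure_union_le _ _
    _ = X.μ (S ∩ X.supp) := by rw [h, add_zero]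

instance (X : MMSpace) : IsProbabilityMeasure X.ν := ⟨by
  rw [← Set.preimage_univ (f := (Subtype.val : X.supp → X.carrier)), ν_preimage]
  exact measure_univ⟩

theorem ν_real_preimage (X : MMSpace) (S : Set X.carrier) :
    X.ν.real (Subtype.val ⁻¹' S) = X.μ.real S := by
  rw [Measure.real, Measure.real, ν_preimage]

theorem volume_II : lam Set.univ = 1 := by
  rw [lam, (MeasurableEmbedding.subtype_coe measurableSet_Ico).comap_apply, Set.image_univ,
    Subtype.range_coe]
  simp

instance : IsProbabilityMeasure lam := ⟨volume_II⟩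

theorem closure_pairs {Y : Type} [MetricSpace Y] {S T : Set Y} {c m : ℝ}
    (h : ∀ x ∈ S, ∀ y ∈ T, |dist x y - m| ≤ c) : ∀ x ∈ closure S, ∀ y ∈ closure T,
    |dist x y - m| ≤ c := by
  intro x hx y hy
  have hcl : IsClosed {p : Y × Y | |dist p.1 p.2 - m| ≤ c} :=
    isClosed_le ((continuous_fst.dist continuous_snd).sub continuous_const).abs continuous_const
  have h1 : closure (S ×ˢ T) ⊆ {p : Y × Y | |dist p.1 p.2 - m| ≤ c} :=
    closure_minimal (fun p hp => h p.1 hp.1 p.2 hp.2) hcl
  rw [closure_prod_eq] at h1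
  exact h1 (show (x, y) ∈ closure S ×ˢ closure T from ⟨hx, hy⟩)

theorem closure_pairs' {Y : Type} [MetricSpace Y] {S : Set Y} {c : ℝ}
    (h : ∀ x ∈ S, ∀ y ∈ S, dist x y ≤ c) : ∀ x ∈ closure S, ∀ y ∈ closure S, dist x y ≤ c := by
  intro x hx y hy
  have hcl : IsClosed {p : Y × Y | dist p.1 p.2 ≤ c} :=
    isClosed_le (continuous_fst.dist continuous_snd) continuous_const
  have h1 : closure (S ×ˢ S) ⊆ {p : Y × Y | dist p.1 p.2 ≤ c} :=
    closure_minimal (fun p hp => h p.1 hp.1 p.2 hp.2) hcl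
  rw [closure_prod_eq] at h1
  exact h1 (show (x, y) ∈ closure S ×ˢ closure S from ⟨hx, hy⟩)

/-- Clumps are transferred along the box distance. -/
theorem transfer {X Y : MMSpace} {δ ε a b m : ℝ} (h : Adm X Y δ) (hc : Clump Y.ν ε a b m) :
    Clump X.ν (ε + δ) a b m := by
  obtain ⟨φ, ψ, I₀, hφ, hψ, hφμ, hψμ, hI₀, hI₀', hdist⟩ := h
  obtain ⟨P, Q, h1, h2, h3, h4, h5, h6, h7⟩ := hc
  have hclosed : IsClosed Y.supp := Measure.isClosed_support
  -- the pulled back sets
  let J : Set Y.supp → Set II := fun R => I₀ ∩ ψ ⁻¹' (Subtype.val '' R)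
  have hmass : ∀ R : Set Y.supp, IsClosed R → ∀ c : ℝ, c - ε ≤ Y.ν.real R →
      c - (ε + δ) ≤ X.ν.real (Subtype.val ⁻¹' (closure (φ '' J R))) := by
    intro R hR c hc
    rw [ν_real_preimage]
    have hR' : IsClosed (Subtype.val '' R : Set Y.carrier) :=
      hclosed.isClosedEmbedding_subtypeVal.isClosedMap R hR
    have e1 : Y.ν.real R = Y.μ.real (Subtype.val '' R) := by
      rw [← ν_real_preimage, Set.preimage_image_eq _ Subtype.val_injective]
    have e2 : Y.μ.real (Subtype.val '' R) = lam.real (ψ ⁻¹' (Subtype.val '' R)) := by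
      rw [← hψμ, Measure.real, Measure.real, Measure.map_apply hψ hR'.measurableSet]
    have e3 : X.μ.real (closure (φ '' J R)) =
        lam.real (φ ⁻¹' (closure (φ '' J R))) := by
      rw [← hφμ, Measure.real, Measure.real, Measure.map_apply hφ isClosed_closure.measurableSet]
    have e4 : lam.real (J R) ≤
        lam.real (φ ⁻¹' (closure (φ '' J R))) := by
      refine measureReal_mono ?_ (measure_ne_top _ _)
      intro s hs
      exact subset_closure ⟨s, hs, rfl⟩
    have e5 : lam.real (ψ ⁻¹' (Subtype.val '' R)) ≤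
        lam.real (J R) + lam.real I₀ᶜ := by
      have : ψ ⁻¹' (Subtype.val '' R) ⊆ J R ∪ I₀ᶜ := by
        intro s hs
        by_cases hsI : s ∈ I₀
        · exact Or.inl ⟨hsI, hs⟩
        · exact Or.inr hsI
      exact (measureReal_mono this).trans (measureReal_union_le _ _)
    have e6 : lam.real I₀ᶜ = 1 - lam.real I₀ := by
      rw [probReal_compl_eq_one_sub hI₀]
    linarith
  have hJdist : ∀ R R' : Set Y.supp, ∀ x ∈ φ '' J R, ∀ y ∈ φ '' J R', ∃ u ∈ R, ∃ v ∈ R',
      |dist x y - dist u v| ≤ δ := by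
    rintro R R' _ ⟨s, ⟨hs1, u, hu, hus⟩, rfl⟩ _ ⟨t, ⟨ht1, v, hv, hvt⟩, rfl⟩
    refine ⟨u, hu, v, hv, ?_⟩
    have := hdist s hs1 t ht1
    rw [← hus, ← hvt] at this
    exact this
  refine ⟨Subtype.val ⁻¹' (closure (φ '' J P)), Subtype.val ⁻¹' (closure (φ '' J Q)),
    isClosed_closure.preimage continuous_subtype_val,
    isClosed_closure.preimage continuous_subtype_val, ?_, ?_, ?_, hmass P h1 a h6,
    hmass Q h2 b h7⟩
  · intro x hx y hy
    refine closure_pairs' (S := φ '' J P) ?_ x hx y hy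
    intro x hx y hy
    obtain ⟨u, hu, v, hv, huv⟩ := hJdist P P x hx y hy
    have := h3 u hu v hv
    rw [abs_le] at huv
    linarith [huv.2]
  · intro x hx y hy
    refine closure_pairs' (S := φ '' J Q) ?_ x hx y hy
    intro x hx y hy
    obtain ⟨u, hu, v, hv, huv⟩ := hJdist Q Q x hx y hy
    have := h4 u hu v hv
    rw [abs_le] at huv
    linarith [huv.2]
  · intro x hx y hy
    refine closure_pairs (S := φ '' J P) (T := φ '' J Q) ?_ x hx y hy
    intro x hx y hy
    obtain ⟨u, hu, v, hv, huv⟩ := hJdist P Q x hx y hy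
    have := h5 u hu v hv
    rw [abs_le] at huv this ⊢
    constructor
    · linarith [huv.1, this.1]
    · linarith [huv.2, this.2]

/-- The classes with two clumps of mass `a` and `b` at distance `m`. -/
def clumpSet (a b m : ℝ) : Set XX := {x | ∀ X, cls X = x → ∀ ε : ℝ, 0 < ε → Clump X.ν ε a b m}

theorem mem_clumpSet {X : MMSpace} {a b m : ℝ} :
    cls X ∈ clumpSet a b m ↔ ∀ ε : ℝ, 0 < ε → Clump X.ν ε a b m := by
  constructor
  · intro h
    exact h X rfl
  · intro h Y hY ε hε
    obtain ⟨f, hf⟩ : Iso X Y := Quotient.exact hY.symm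
    exact (h ε hε).iso f hf

theorem box_lt {x y : XX} {r : ℝ≥0∞} (h : box x y < r) : ∃ (X Y : MMSpace) (ε : ℝ≥0),
    cls X = x ∧ cls Y = y ∧ Adm X Y ε ∧ (ε : ℝ≥0∞) < r := by
  obtain ⟨_, ⟨X, Y, ε, h1, h2, h3, rfl⟩, h4⟩ := sInf_lt_iff.1 h
  exact ⟨X, Y, ε, h1, h2, h3, h4⟩

/-- A point close to a member of the clump set. -/
theorem clump_of_box {X : MMSpace} {y : XX} {a b m : ℝ} {r : ℝ≥0} (hr : 0 < r)
    (hy : y ∈ clumpSet a b m) (h : box (cls X) y < r) : Clump X.ν (2 * r) a b m := by
  obtain ⟨X', Y, δ, hX', rfl, hadm, hδ⟩ := box_lt h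
  have h1 : Clump Y.ν r a b m := hy Y rfl r hr
  have h2 := transfer hadm h1
  have hδ' : (δ : ℝ) < r := by exact_mod_cast hδ
  obtain ⟨f, hf⟩ : Iso X' X := Quotient.exact hX'
  exact (h2.iso f hf).mono (by linarith)

theorem isBoxClosed_clumpSet (a b m : ℝ) : IsBoxClosed (clumpSet a b m) := by
  intro x hx X hX ε hε
  subst hX
  obtain ⟨y, hy, hxy⟩ := hx (Real.toNNReal (ε / 2)) (by simpa using hε)
  have h := clump_of_box (by simpa using hε) hy hxy
  apply h.mono
  rw [Real.coe_toNNReal _ (by linarith)]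
  linarith

/-- The closed set of the classes of two point spaces. -/
noncomputable def A (n m : ℕ) : FF :=
  ⟨clumpSet (1 - 1 / ((n : ℝ) + 2)) (1 / ((n : ℝ) + 2)) m, isBoxClosed_clumpSet _ _ _⟩

/-- The closed set of classes of Dirac measures. -/
noncomputable def B : FF := ⟨clumpSet 1 0 0, isBoxClosed_clumpSet _ _ _⟩

/-- The empty set. -/
def E : FF := ⟨∅, fun x hx => by
  obtain ⟨y, hy, -⟩ := hx 1 one_pos
  exact hy⟩

/-! ## The examples -/

/-- The point. -/
noncomputable def pt : MMSpace where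
  carrier := ℝ
  μ := Measure.dirac 0

/-- The two-point spaces. -/
noncomputable def two (n m : ℕ) : MMSpace where
  carrier := ℝ
  μ := ENNReal.ofReal (1 - 1 / ((n : ℝ) + 2)) • Measure.dirac 0 +
    ENNReal.ofReal (1 / ((n : ℝ) + 2)) • Measure.dirac (m : ℝ)
  prob := ⟨by
    have h0 : (0 : ℝ) < (n : ℝ) + 2 := by positivity
    have h1 : 1 / ((n : ℝ) + 2) ≤ 1 := by
      rw [div_le_one h0]
      have : (0 : ℝ) ≤ n := Nat.cast_nonneg n
      linarith
    have h2 : 0 ≤ 1 / ((n : ℝ) + 2) := by positivity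
    simp only [Measure.coe_add, Measure.coe_smul, Pi.add_apply, Pi.smul_apply, measure_univ,
      smul_eq_mul, mul_one]
    rw [← ENNReal.ofReal_add (by linarith) h2]
    simp⟩

theorem b_pos (n : ℕ) : 0 < 1 / ((n : ℝ) + 2) := by positivity

theorem b_le (n : ℕ) : 1 / ((n : ℝ) + 2) ≤ 1 / 2 := by
  have : (0 : ℝ) ≤ n := Nat.cast_nonneg n
  exact one_div_le_one_div_of_le (by norm_num) (by linarith)

theorem two_mem (n m : ℕ) : cls (two n m) ∈ (A n m).1 := by
  apply mem_clumpSet.2
  intro ε hε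
  have hb := b_pos n
  have hb' := b_le n
  refine ⟨Subtype.val ⁻¹' {(0 : ℝ)}, Subtype.val ⁻¹' {(m : ℝ)},
    isClosed_singleton.preimage continuous_subtype_val,
    isClosed_singleton.preimage continuous_subtype_val, ?_, ?_, ?_, ?_, ?_⟩
  · intro x hx y hy
    have h1 : x.1 = (0 : ℝ) := hx
    have h2 : y.1 = (0 : ℝ) := hy
    have : dist x y = 0 := by
      rw [Subtype.dist_eq, h1.trans h2.symm, dist_self]
    rw [this]
    exact hε.le
  · intro x hx y hy
    have h1 : x.1 = (m : ℝ) := hx
    have h2 : y.1 = (m : ℝ) := hy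
    have : dist x y = 0 := by
      rw [Subtype.dist_eq, h1.trans h2.symm, dist_self]
    rw [this]
    exact hε.le
  · intro x hx y hy
    have h1 : x.1 = (0 : ℝ) := hx
    have h2 : y.1 = (m : ℝ) := hy
    have : dist x y = m := by
      rw [Subtype.dist_eq, h1, h2]
      change dist (0 : ℝ) (m : ℝ) = m
      rw [Real.dist_eq]
      simp
    rw [this, sub_self, abs_zero]
    exact hε.le
  · rw [ν_real_preimage]
    have h1 : ENNReal.ofReal (1 - 1 / ((n : ℝ) + 2)) ≤ (two n m).μ {(0 : ℝ)} := by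
      change _ ≤ (ENNReal.ofReal (1 - 1 / ((n : ℝ) + 2)) • Measure.dirac 0 +
        ENNReal.ofReal (1 / ((n : ℝ) + 2)) • Measure.dirac (m : ℝ) : Measure ℝ) {(0 : ℝ)}
      simp
    have h2 : (1 - 1 / ((n : ℝ) + 2)) ≤ (two n m).μ.real {(0 : ℝ)} := by
      rw [Measure.real]
      have := ENNReal.toReal_mono (measure_ne_top _ _) h1
      rwa [ENNReal.toReal_ofReal (by linarith)] at this
    linarith
  · rw [ν_real_preimage]
    have h1 : ENNReal.ofReal (1 / ((n : ℝ) + 2)) ≤ (two n m).μ {(m : ℝ)} := by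
      change _ ≤ (ENNReal.ofReal (1 - 1 / ((n : ℝ) + 2)) • Measure.dirac 0 +
        ENNReal.ofReal (1 / ((n : ℝ) + 2)) • Measure.dirac (m : ℝ) : Measure ℝ) {(m : ℝ)}
      simp
    have h2 : (1 / ((n : ℝ) + 2)) ≤ (two n m).μ.real {(m : ℝ)} := by
      rw [Measure.real]
      have := ENNReal.toReal_mono (measure_ne_top _ _) h1
      rwa [ENNReal.toReal_ofReal hb.le] at this
    linarith

theorem pt_mem : cls pt ∈ B.1 := by
  apply mem_clumpSet.2
  intro ε hε
  refine ⟨Subtype.val ⁻¹' {(0 : ℝ)}, ∅,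
    isClosed_singleton.preimage continuous_subtype_val, isClosed_empty, ?_,
    fun x hx => absurd hx (Set.notMem_empty x), fun x _ y hy => absurd hy (Set.notMem_empty y),
    ?_, ?_⟩
  · intro x hx y hy
    have h1 : x.1 = (0 : ℝ) := hx
    have h2 : y.1 = (0 : ℝ) := hy
    have : dist x y = 0 := by
      rw [Subtype.dist_eq, h1.trans h2.symm, dist_self]
    rw [this]
    exact hε.le
  · rw [ν_real_preimage]
    have h1 : pt.μ.real {(0 : ℝ)} = 1 := by
      change (Measure.dirac (0 : ℝ)).real {(0 : ℝ)} = 1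
      simp [Measure.real]
    rw [h1]
    linarith
  · simp only [measureReal_empty]
    linarith

/-- The two-point spaces converge to the point. -/
theorem box_pt_two (n m : ℕ) : box (cls pt) (cls (two n m)) ≤
    ENNReal.ofReal (1 / ((n : ℝ) + 2)) := by
  classical
  have hb := b_pos n
  have hb' := b_le n
  set b : ℝ := 1 / ((n : ℝ) + 2) with hbdef
  apply sInf_le
  refine ⟨pt, two n m, Real.toNNReal b, rfl, rfl, ?_, rfl⟩
  let I₀ : Set II := {s | (s : ℝ) < 1 - b}
  have hI₀ : MeasurableSet I₀ := measurableSet_lt measurable_subtype_coe measurable_const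
  have hvol : lam I₀ = ENNReal.ofReal (1 - b) := by
    rw [lam, (MeasurableEmbedding.subtype_coe measurableSet_Ico).comap_apply]
    have : (Subtype.val '' I₀ : Set ℝ) = Set.Ico 0 (1 - b) := by
      ext s
      constructor
      · rintro ⟨⟨s, hs1, hs2⟩, hs, rfl⟩
        exact ⟨hs1, hs⟩
      · rintro ⟨hs1, hs2⟩
        exact ⟨⟨s, hs1, by linarith⟩, hs2, rfl⟩
    rw [this, Real.volume_Ico, sub_zero]
  have hvolc : lam I₀ᶜ = ENNReal.ofReal b := by
    rw [prob_compl_eq_one_sub hI₀, hvol, ← ENNReal.ofReal_one, ← ENNReal.ofReal_sub _ (by linarith)]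
    congr 1
    ring
  let g : II → ℝ := fun s => if s ∈ I₀ then (0 : ℝ) else (m : ℝ)
  have hg : Measurable g := Measurable.ite hI₀ measurable_const measurable_const
  have hg0 : ∀ s ∈ I₀, g s = 0 := fun s hs => if_pos hs
  have hg1 : ∀ s ∉ I₀, g s = m := fun s hs => if_neg hs
  refine ⟨fun _ => (0 : ℝ), g, I₀, measurable_const, hg, ?_, ?_, hI₀, ?_, ?_⟩
  · have h : lam.map (fun _ : II => (0 : ℝ)) = Measure.dirac 0 := by
      rw [Measure.map_const, volume_II, one_smul]
    exact h
  · have h : lam.map g =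
        (ENNReal.ofReal (1 - b) • Measure.dirac 0 +
        ENNReal.ofReal b • Measure.dirac (m : ℝ) : Measure ℝ) := ?_
    · exact h
    ext S hS
    rw [Measure.map_apply hg hS]
    have h1 : g ⁻¹' S =
        (I₀ ∩ {_s : II | (0 : ℝ) ∈ S}) ∪ (I₀ᶜ ∩ {_s : II | (m : ℝ) ∈ S}) := by
      ext s
      by_cases hs : s ∈ I₀
      · simp [hs, hg0 s hs]
      · simp [hs, hg1 s hs]
    rw [h1, measure_union (Set.disjoint_left.2 fun s hs hs' => hs'.1 hs.1)
      (hI₀.compl.inter (MeasurableSet.const _))]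
    rw [Measure.add_apply, Measure.smul_apply, Measure.smul_apply, Measure.dirac_apply' _ hS,
      Measure.dirac_apply' _ hS]
    congr 1
    · by_cases h0 : (0 : ℝ) ∈ S
      · simp [h0, hvol]
      · simp [h0]
    · by_cases h0 : (m : ℝ) ∈ S
      · simp [h0, hvolc]
      · simp [h0]
  · rw [Measure.real, hvol, ENNReal.toReal_ofReal (by linarith), Real.coe_toNNReal _ hb.le]
  · intro s hs t ht
    rw [Real.coe_toNNReal _ hb.le]
    change |dist (0 : ℝ) 0 - dist (g s) (g t)| ≤ b
    rw [hg0 s hs, hg0 t ht, sub_self, abs_zero]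
    exact hb.le

/-! ## Dirac measures -/

theorem ν_pos (X : MMSpace) (x : X.supp) {r : ℝ} (hr : 0 < r) :
    0 < X.ν.real (Metric.ball x r) := by
  have h1 : (Metric.ball x r : Set X.supp) = Subtype.val ⁻¹' (Metric.ball (x : X.carrier) r) := rfl
  rw [h1, ν_real_preimage, Measure.real, ENNReal.toReal_pos_iff]
  refine ⟨?_, measure_lt_top _ _⟩
  exact (Measure.mem_support_iff_forall (x : X.carrier)).1 x.2 _ (Metric.ball_mem_nhds _ hr)

theorem subsingleton_of_clump {X : MMSpace} (h : ∀ ε : ℝ, 0 < ε → Clump X.ν ε 1 0 0) :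
    Subsingleton X.supp := by
  constructor
  intro x y
  by_contra hne
  have hd : 0 < dist x y := dist_pos.2 hne
  have hx := ν_pos X x (r := dist x y / 3) (by linarith)
  have hy := ν_pos X y (r := dist x y / 3) (by linarith)
  let ε : ℝ := min (dist x y / 3) (min (X.ν.real (Metric.ball x (dist x y / 3)))
    (X.ν.real (Metric.ball y (dist x y / 3)))) / 2
  have hε : 0 < ε := by
    have : 0 < min (dist x y / 3) (min (X.ν.real (Metric.ball x (dist x y / 3)))
      (X.ν.real (Metric.ball y (dist x y / 3)))) := by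
      rw [lt_min_iff, lt_min_iff]
      exact ⟨by linarith, hx, hy⟩
    exact half_pos this
  have hε1 : ε < dist x y / 3 := by
    have h1 : 2 * ε ≤ dist x y / 3 := by
      have := min_le_left (dist x y / 3) (min (X.ν.real (Metric.ball x (dist x y / 3)))
        (X.ν.real (Metric.ball y (dist x y / 3))))
      simp only [ε]
      linarith
    linarith
  have hε2 : ε < X.ν.real (Metric.ball x (dist x y / 3)) := by
    have h1 : 2 * ε ≤ X.ν.real (Metric.ball x (dist x y / 3)) := by
      have := (min_le_right (dist x y / 3) (min (X.ν.real (Metric.ball x (dist x y / 3)))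
        (X.ν.real (Metric.ball y (dist x y / 3))))).trans (min_le_left _ _)
      simp only [ε]
      linarith
    linarith
  have hε3 : ε < X.ν.real (Metric.ball y (dist x y / 3)) := by
    have h1 : 2 * ε ≤ X.ν.real (Metric.ball y (dist x y / 3)) := by
      have := (min_le_right (dist x y / 3) (min (X.ν.real (Metric.ball x (dist x y / 3)))
        (X.ν.real (Metric.ball y (dist x y / 3))))).trans (min_le_right _ _)
      simp only [ε]
      linarith
    linarith
  obtain ⟨P, -, hP, -, hPd, -, -, hPm, -⟩ := h ε hε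
  have key : ∀ S : Set X.supp, ε < X.ν.real S → (P ∩ S).Nonempty := by
    intro S hS
    by_contra hcon
    rw [Set.not_nonempty_iff_eq_empty] at hcon
    have h1 : S ⊆ Pᶜ := by
      intro z hz hzP
      have : z ∈ P ∩ S := ⟨hzP, hz⟩
      rw [hcon] at this
      exact this
    have h2 : X.ν.real S ≤ X.ν.real Pᶜ := measureReal_mono h1
    rw [probReal_compl_eq_one_sub hP.measurableSet] at h2
    linarith
  obtain ⟨u, huP, hu⟩ := key _ hε2
  obtain ⟨v, hvP, hv⟩ := key _ hε3
  have h1 := hPd u huP v hvP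
  rw [Metric.mem_ball] at hu hv
  have h2 : dist x y ≤ dist u x + dist u v + dist v y := by
    calc dist x y ≤ dist x u + dist u y := dist_triangle _ _ _
      _ ≤ dist x u + (dist u v + dist v y) := by gcongr; exact dist_triangle _ _ _
      _ = dist u x + dist u v + dist v y := by rw [dist_comm x u]; ring
  linarith

theorem nonempty_supp (X : MMSpace) : Nonempty X.supp := by
  by_contra h
  rw [not_nonempty_iff] at h
  have h1 : X.ν Set.univ = 1 := measure_univ
  rw [Set.univ_eq_empty_iff.2 h, measure_empty] at h1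
  exact zero_ne_one h1

theorem iso_of_subsingleton {X Y : MMSpace} (hX : Subsingleton X.supp)
    (hY : Subsingleton Y.supp) : Iso X Y := by
  obtain ⟨x⟩ := nonempty_supp X
  obtain ⟨y⟩ := nonempty_supp Y
  let f : X.supp ≃ᵢ Y.supp :=
    { toFun := fun _ => y
      invFun := fun _ => x
      left_inv := fun _ => Subsingleton.elim _ _
      right_inv := fun _ => Subsingleton.elim _ _
      isometry_toFun := fun a b => by
        rw [Subsingleton.elim a b, edist_self, edist_self] }
  refine ⟨f, ?_⟩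
  ext S hS
  rcases S.eq_empty_or_nonempty with rfl | ⟨z, hz⟩
  · simp
  · have h1 : S = Set.univ := by
      ext w
      simp only [Set.mem_univ, iff_true]
      rw [Subsingleton.elim w z]
      exact hz
    rw [h1, Measure.map_apply f.continuous.measurable MeasurableSet.univ, Set.preimage_univ,
      measure_univ, measure_univ]

theorem eq_pt {x : XX} (hx : x ∈ B.1) : x = cls pt := by
  obtain ⟨X, rfl⟩ := Quotient.exists_rep x
  have h1 : ∀ ε : ℝ, 0 < ε → Clump X.ν ε 1 0 0 := mem_clumpSet.1 hx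
  have h2 : ∀ ε : ℝ, 0 < ε → Clump pt.ν ε 1 0 0 := mem_clumpSet.1 pt_mem
  exact Quotient.sound (iso_of_subsingleton (subsingleton_of_clump h1) (subsingleton_of_clump h2))

/-! ## Convergence -/

theorem exists_ball (X : MMSpace) {η : ℝ} (hη : 0 < η) : ∃ R : ℝ, ∀ ε a b m : ℝ,
    Clump X.ν ε a b m → η < a - ε → η < b - ε → ε ≤ 1 → m ≤ R := by
  obtain ⟨x₀⟩ := nonempty_supp X
  have h1 : Tendsto (fun n : ℕ => X.ν (Metric.closedBall x₀ n)) atTop (𝓝 (X.ν Set.univ)) := by
    have h2 : (⋃ n : ℕ, Metric.closedBall x₀ (n : ℝ)) = Set.univ := by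
      apply Set.eq_univ_of_forall
      intro y
      obtain ⟨n, hn⟩ := exists_nat_ge (dist y x₀)
      exact Set.mem_iUnion.2 ⟨n, hn⟩
    rw [← h2]
    apply tendsto_measure_iUnion_atTop
    intro m n hmn
    exact Metric.closedBall_subset_closedBall (by exact_mod_cast hmn)
  rw [measure_univ] at h1
  have h2 : Tendsto (fun n : ℕ => X.ν.real (Metric.closedBall x₀ n)) atTop (𝓝 1) := by
    have := (ENNReal.tendsto_toReal (a := 1) (by simp)).comp h1
    rw [ENNReal.toReal_one] at this
    exact this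
  obtain ⟨n, hn⟩ := (h2.eventually (lt_mem_nhds (show 1 - η < 1 by linarith))).exists
  refine ⟨2 * n + 1, ?_⟩
  rintro ε a b m ⟨P, Q, hP, hQ, -, -, hPQ, hPm, hQm⟩ ha hb hε
  have key : ∀ S : Set X.supp, η < X.ν.real S → (S ∩ Metric.closedBall x₀ n).Nonempty := by
    intro S hS
    by_contra hcon
    rw [Set.not_nonempty_iff_eq_empty] at hcon
    have h1 : S ⊆ (Metric.closedBall x₀ (n : ℝ))ᶜ := by
      intro z hz hzP
      have : z ∈ S ∩ Metric.closedBall x₀ n := ⟨hz, hzP⟩
      rw [hcon] at this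
      exact this
    have h2 : X.ν.real S ≤ X.ν.real (Metric.closedBall x₀ (n : ℝ))ᶜ := measureReal_mono h1
    rw [probReal_compl_eq_one_sub Metric.isClosed_closedBall.measurableSet] at h2
    linarith
  obtain ⟨u, hu, hu'⟩ := key P (by linarith)
  obtain ⟨v, hv, hv'⟩ := key Q (by linarith)
  have h3 := hPQ u hu v hv
  rw [Metric.mem_closedBall] at hu' hv'
  have h4 : dist u v ≤ dist u x₀ + dist v x₀ := dist_triangle_right _ _ _
  rw [abs_le] at h3
  linarith [h3.1]

/-- For fixed `n` the sets `A n m` converge to the empty set. -/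
theorem kp_empty (n : ℕ) : KP (fun m : ULift.{w} ℕ => A n m.down) E := by
  refine ⟨?_, fun x hx => absurd hx (Set.notMem_empty x)⟩
  intro x hx
  exfalso
  obtain ⟨X, rfl⟩ := Quotient.exists_rep x
  have hb := b_pos n
  have hb' := b_le n
  set b : ℝ := 1 / ((n : ℝ) + 2) with hbdef
  obtain ⟨R, hR⟩ := exists_ball X (η := b / 2) (by linarith)
  have h1 := hx (Real.toNNReal (b / 8)) (by simpa using hb)
  have h2 : ∀ᶠ m : ULift.{w} ℕ in atTop, R < (m.down : ℝ) := by
    obtain ⟨N, hN⟩ := exists_nat_gt R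
    filter_upwards [eventually_ge_atTop (ULift.up N)] with m hm
    have hm' : N ≤ m.down := hm
    calc R < N := hN
      _ ≤ m.down := by exact_mod_cast hm'
  obtain ⟨m, ⟨y, hy, hxy⟩, hm⟩ := (h1.and_eventually h2).exists
  have h3 := clump_of_box (X := X) (by simpa using hb) hy hxy
  rw [Real.coe_toNNReal _ (by linarith)] at h3
  have h4 := hR _ _ _ _ h3 (by linarith) (by linarith) (by linarith)
  linarith

/-- For an arbitrary choice of the distances the sets converge to `{pt}`. -/
theorem kp_point (m : ℕ → ℕ) : KP (fun n : ULift.{w} ℕ => A n.down (m n.down)) B := by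
  have hsmall : ∀ ε : ℝ, 0 < ε → ∀ᶠ n : ULift.{w} ℕ in atTop, 1 / ((n.down : ℝ) + 2) < ε := by
    intro ε hε
    obtain ⟨N, hN⟩ := exists_nat_gt (1 / ε)
    filter_upwards [eventually_ge_atTop (ULift.up N)] with n hn
    have hn' : (N : ℝ) ≤ n.down := by exact_mod_cast hn
    have h1 : 1 / ε < (n.down : ℝ) + 2 := by linarith
    have h2 : 0 < (n.down : ℝ) + 2 := by positivity
    rw [div_lt_iff₀ h2]
    rw [div_lt_iff₀ hε] at h1
    linarith
  constructor
  · intro x hx
    obtain ⟨X, rfl⟩ := Quotient.exists_rep x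
    apply mem_clumpSet.2
    intro ε hε
    have h1 := hx (Real.toNNReal (ε / 4)) (by simpa using hε)
    obtain ⟨n, ⟨y, hy, hxy⟩, hn⟩ := (h1.and_eventually (hsmall (ε / 2) (by linarith))).exists
    have h3 := clump_of_box (X := X) (by simpa using hε) hy hxy
    rw [Real.coe_toNNReal _ (by linarith)] at h3
    obtain ⟨P, -, hP, -, hPd, -, -, hPm, -⟩ := h3
    refine ⟨P, ∅, hP, isClosed_empty, fun u hu v hv => (hPd u hu v hv).trans (by linarith),
      fun x hx => absurd hx (Set.notMem_empty x), fun x _ y hy => absurd hy (Set.notMem_empty y),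
      by linarith, ?_⟩
    simp only [measureReal_empty]
    linarith
  · intro x hx ε hε
    rw [eq_pt hx]
    filter_upwards [hsmall ε (by exact_mod_cast hε)] with n hn
    refine ⟨cls (two n.down (m n.down)), two_mem _ _, ?_⟩
    refine (box_pt_two _ _).trans_lt ?_
    rw [← ENNReal.ofReal_coe_nnreal]
    exact (ENNReal.ofReal_lt_ofReal_iff (by exact_mod_cast hε)).2 hn

/-- The space `(𝓕(𝒳, □), τK)` is neither Hausdorff nor metrizable. -/
theorem result : ¬ @T2Space FF tauK.{w} ∧ ¬ @TopologicalSpace.MetrizableSpace FF tauK.{w} := by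
  have main : ¬ @T2Space FF tauK.{w} := by
    intro hT2
    let _ : TopologicalSpace FF := tauK.{w}
    have hne : E ≠ B := by
      intro h
      have h1 : cls pt ∈ E.1 := h ▸ pt_mem
      exact h1
    obtain ⟨U, V, hU, hV, hEU, hBV, hdisj⟩ := t2_separation hne
    have h1 : ∀ n, ∃ m, A n m ∈ U := by
      intro n
      have := hU (ULift.{w} ℕ) (fun m => A n m.down) E (kp_empty n) hEU
      obtain ⟨m, hm⟩ := this.exists
      exact ⟨m.down, hm⟩
    choose m hm using h1
    have h2 := hV (ULift.{w} ℕ) (fun n => A n.down (m n.down)) B (kp_point m) hBV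
    obtain ⟨n, hn⟩ := h2.exists
    exact Set.disjoint_left.1 hdisj (hm n.down) hn
  refine ⟨main, fun h => main ?_⟩
  let _ : TopologicalSpace FF := tauK.{w}
  exact inferInstance

end Pool.Agent.Results.MP_3b4475_gt.NotHausdorff
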